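import Mathlib
import Pool.Agent.Helper91.TTT.Exotic

set_option autoImplicit false
open scoped ComplexOrder InnerProductSpace
open Filter Helper17.FU Helper17.FUGroup Helper91.TTT

namespace Pool.Agent.Results.MP_81910f_an.LocalToGlobal

/-- extreme normalised positive definite class functions -/
def IsExtremeTrace (G : Subgroup (Equiv.Perm ℚ)) (φ : G → ℂ) : Prop :=
  φ ∈ Set.extremePoints ℝ {ψ : G → ℂ | ψ 1 = 1 ∧ (∀ g h : G, ψ (h * g * h⁻¹) = ψ g) ∧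
    ∀ (s : Finset G) (c : G → ℂ), 0 ≤ ∑ i ∈ s, ∑ j ∈ s, star (c j) * c i * ψ (j⁻¹ * i)}

/-- the translates by translations span a finite dimensional space -/
def CondFiniteDim (G : Subgroup (Equiv.Perm ℚ)) (φ : G → ℂ) : Prop :=
  FiniteDimensional ℂ (Submodule.span ℂ {F : G → ℂ | ∃ n : G,
    (∃ r : ℚ, ∀ x : ℚ, (n : Equiv.Perm ℚ) x = x + r) ∧ F = fun x => φ (n * x)})

/-- counterexamples to the question -/
def IsExotic (G : Subgroup (Equiv.Perm ℚ)) (φ : G → ℂ) : Prop :=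
  IsExtremeTrace G φ ∧ φ ≠ Set.indicator ({1} : Set G) (fun _ => (1 : ℂ)) ∧ ¬ CondFiniteDim G φ

/-- conjugation by the multiplication by `q` maps the group to itself -/
lemma exists_theta (s2 s3 t : Equiv.Perm ℚ) (h2 : ∀ x : ℚ, s2 x = 2 * x)
    (h3 : ∀ x : ℚ, s3 x = 3 * x) (ht : ∀ x : ℚ, t x = x + 1) (q : ℕ) :
    ∃ θ : GG s2 s3 t →* GG s2 s3 t, 1 ≤ q → ∀ (g : GG s2 s3 t) (x : ℚ),
      (θ g : Equiv.Perm ℚ) (q * x) = q * (g : Equiv.Perm ℚ) x := by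
  rcases Nat.eq_zero_or_pos q with h | hq
  · exact ⟨MonoidHom.id _, fun h' => by omega⟩
  have hq0 : (q : ℚ) ≠ 0 := by exact_mod_cast hq.ne'
  set D : Equiv.Perm ℚ := Equiv.mulLeft₀ (q : ℚ) hq0 with hD
  have hDx : ∀ x : ℚ, D x = q * x := fun x => rfl
  have hDi : ∀ x : ℚ, D⁻¹ (q * x) = x := by
    intro x
    rw [Equiv.Perm.inv_eq_iff_eq]
    rfl
  have hmem : ∀ g : Equiv.Perm ℚ, g ∈ Subgroup.closure {s2, s3, t} →
      D * g * D⁻¹ ∈ Subgroup.closure {s2, s3, t} := by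
    intro g hg
    induction hg using Subgroup.closure_induction with
    | mem g hg =>
      simp only [Set.mem_insert_iff, Set.mem_singleton_iff] at hg
      rcases hg with rfl | rfl | rfl
      · have e : D * g * D⁻¹ = g := by
          rw [mul_inv_eq_iff_eq_mul]
          ext x
          rw [Equiv.Perm.mul_apply, Equiv.Perm.mul_apply, h2, hDx, hDx, h2]; ring
        rw [e]; exact Subgroup.subset_closure (by simp)
      · have e : D * g * D⁻¹ = g := by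
          rw [mul_inv_eq_iff_eq_mul]
          ext x
          rw [Equiv.Perm.mul_apply, Equiv.Perm.mul_apply, h3, hDx, hDx, h3]; ring
        rw [e]; exact Subgroup.subset_closure (by simp)
      · have e : D * g * D⁻¹ = g ^ (q : ℤ) := by
          rw [mul_inv_eq_iff_eq_mul]
          ext x
          rw [Equiv.Perm.mul_apply, Equiv.Perm.mul_apply, t_zpow ht, ht, hDx, hDx]
          push_cast; ring
        rw [e]; exact Subgroup.zpow_mem _ (Subgroup.subset_closure (by simp)) _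
    | one => simp
    | mul g k _ _ hg hk =>
      have e : D * (g * k) * D⁻¹ = (D * g * D⁻¹) * (D * k * D⁻¹) := by group
      rw [e]; exact Subgroup.mul_mem _ hg hk
    | inv g _ hg =>
      have e : D * g⁻¹ * D⁻¹ = (D * g * D⁻¹)⁻¹ := by group
      rw [e]; exact Subgroup.inv_mem _ hg
  refine ⟨((MulAut.conj D).toMonoidHom.comp (GG s2 s3 t).subtype).codRestrict (GG s2 s3 t)
    (fun g => hmem g g.2), fun _ g x => ?_⟩
  show (D * (g : Equiv.Perm ℚ) * D⁻¹) (q * x) = q * (g : Equiv.Perm ℚ) x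
  rw [Equiv.Perm.mul_apply, Equiv.Perm.mul_apply, hDi, hDx]

/-- **Local to global.** -/
theorem result :
  ∀ (s2 s3 t : Equiv.Perm ℚ), (∀ x : ℚ, s2 x = 2 * x) → (∀ x : ℚ, s3 x = 3 * x) →
  (∀ x : ℚ, t x = x + 1) →
  ∀ (G : Subgroup (Equiv.Perm ℚ)), G = Subgroup.closure {s2, s3, t} →
  (∃ θ : ℕ → (G →* G),
    (∀ q : ℕ, 1 ≤ q → ∀ (g : G) (x : ℚ),
      (θ q g : Equiv.Perm ℚ) (q * x) = q * (g : Equiv.Perm ℚ) x) ∧
    ∀ φ : G → ℂ, IsExotic G φ →
      (∀ q : ℕ, 1 ≤ q → IsExotic G (fun g => φ (θ q g))) ∧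
      ∀ F : Finset G, (1 : G) ∉ F → ∀ ε : ℝ, 0 < ε →
        Tendsto (fun X : ℕ => (((Finset.Icc 1 X).filter
          (fun q : ℕ => ∃ g ∈ F, ε ≤ ‖φ (θ q g)‖)).card : ℝ) / X) atTop (nhds 0)) ∧
  ((∀ φ : G → ℂ, IsExtremeTrace G φ →
      φ = Set.indicator ({1} : Set G) (fun _ => (1 : ℂ)) ∨ CondFiniteDim G φ) ↔
    ∃ (F : Finset G) (ε : ℝ), (1 : G) ∉ F ∧ 0 < ε ∧
      ∀ φ : G → ℂ, IsExtremeTrace G φ → (∀ g ∈ F, ‖φ g‖ < ε) →
        φ = Set.indicator ({1} : Set G) (fun _ => (1 : ℂ)) ∨ CondFiniteDim G φ) := by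
  classical
  intro s2 s3 t h2 h3 ht G hG
  subst hG
  obtain ⟨σ2, σ3, τ, hσ2, hσ3, hτ, e2, e3, ecomm, hgen⟩ := relations h2 h3 ht
  choose θ hθ using exists_theta s2 s3 t h2 h3 ht
  have hθτ : ∀ q : ℕ, 1 ≤ q → θ q τ = τ ^ (q : ℤ) := by
    intro q hq
    have hq0 : (q : ℚ) ≠ 0 := by exact_mod_cast (by omega : q ≠ 0)
    apply Subtype.ext
    ext y
    have h4 := hθ q hq τ (y / q)
    have e : (q : ℚ) * (y / q) = y := by field_simp
    rw [e] at h4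
    rw [h4, Subgroup.coe_zpow, hτ, t_zpow ht, ht]
    push_cast
    field_simp
  have hθtr : ∀ q : ℕ, 1 ≤ q → ∀ g : GG s2 s3 t, ¬ IsTr g → ¬ IsTr (θ q g) := by
    rintro q hq g hg ⟨r, hr⟩
    have hq0 : (q : ℚ) ≠ 0 := by exact_mod_cast (by omega : q ≠ 0)
    apply hg
    refine ⟨r / q, fun x => ?_⟩
    have h4 := hθ q hq g x
    rw [hr] at h4
    field_simp
    linarith
  have hpull : ∀ φ : GG s2 s3 t → ℂ, IsExotic (GG s2 s3 t) φ →
      ∀ q : ℕ, 1 ≤ q → IsExotic (GG s2 s3 t) (fun g => φ (θ q g)) := by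
    rintro φ ⟨hφ, hΔ, hfd⟩ q hq
    exact pullback h2 h3 ht hτ hφ hΔ hfd (θ q) (q := (q : ℤ)) (by omega) (hθτ q hq)
  have hdens : ∀ φ : GG s2 s3 t → ℂ, IsExotic (GG s2 s3 t) φ →
      ∀ F : Finset (GG s2 s3 t), (1 : GG s2 s3 t) ∉ F → ∀ ε : ℝ, 0 < ε →
        Tendsto (fun X : ℕ => (((Finset.Icc 1 X).filter
          (fun q : ℕ => ∃ g ∈ F, ε ≤ ‖φ (θ q g)‖)).card : ℝ) / X) atTop (nhds 0) := by
    rintro φ ⟨hφ, hΔ, hfd⟩ F hF ε hε
    have hFφ : Fact (PD φ) := ⟨hφ.1.2.2⟩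
    have hM : ∀ g : GG s2 s3 t, ∃ m : ℤ, m ≠ 0 ∧ (IsTr g → g ≠ 1 → ∃ σ : GG s2 s3 t,
        g = σ * τ ^ m * σ⁻¹) := by
      intro g
      by_cases hg : IsTr g ∧ g ≠ 1
      · obtain ⟨m, σ, h4, h5⟩ := trans_conj' h2 h3 ht hτ g hg.1
        exact ⟨m, h5 hg.2, fun _ _ => ⟨σ, h4⟩⟩
      · exact ⟨1, one_ne_zero, fun h h' => absurd ⟨h, h'⟩ hg⟩
    choose M hM0 hM1 using hM
    have h4 := density_zero hφ.1 τ (ww_tendsto h2 h3 ht hτ hφ hfd) (F.image M)
      (fun k hk => by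
        obtain ⟨g, _, rfl⟩ := Finset.mem_image.mp hk
        exact hM0 g) ε hε
    refine squeeze_zero (fun X => by positivity) (fun X => ?_) h4
    refine div_le_div_of_nonneg_right ?_ (Nat.cast_nonneg X)
    have hsub : (Finset.Icc 1 X).filter (fun q : ℕ => ∃ g ∈ F, ε ≤ ‖φ (θ q g)‖) ⊆
        (Finset.Icc 1 X).filter
          (fun q : ℕ => ∃ k ∈ F.image M, ε ≤ ‖φ (τ ^ (k * (q : ℤ)))‖) := by
      intro q hq
      rw [Finset.mem_filter] at hq ⊢
      obtain ⟨hq1, g, hg, hgε⟩ := hq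
      have hq1' := (Finset.mem_Icc.mp hq1).1
      refine ⟨hq1, M g, Finset.mem_image_of_mem M hg, ?_⟩
      have hgtr : IsTr g := by
        by_contra hng
        rw [exotic_off h2 h3 ht hφ hfd (θ q g) (hθtr q hq1' g hng), norm_zero] at hgε
        linarith
      obtain ⟨σ, hσ⟩ := hM1 g hgtr (fun h => hF (h ▸ hg))
      have e : φ (θ q g) = φ (τ ^ (M g * (q : ℤ))) := by
        conv_lhs => rw [hσ]
        rw [map_mul, map_mul, map_inv, hφ.1.2.1, map_zpow, hθτ q hq1', ← zpow_mul, mul_comm]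
      rw [← e]
      exact hgε
    exact_mod_cast Finset.card_le_card hsub
  refine ⟨⟨θ, hθ, fun φ hφ => ⟨hpull φ hφ, hdens φ hφ⟩⟩, ?_, ?_⟩
  · intro h
    exact ⟨∅, 1, by simp, one_pos, fun φ hφ _ => h φ hφ⟩
  · rintro ⟨F, ε, hF, hε, hloc⟩ φ hφ
    by_contra hcon
    push Not at hcon
    have hex : IsExotic (GG s2 s3 t) φ := ⟨hφ, hcon.1, hcon.2⟩
    have h5 := hdens φ hex F hF ε hε
    -- a good multiplier
    obtain ⟨q, hq1, hq⟩ : ∃ q : ℕ, 1 ≤ q ∧ ∀ g ∈ F, ‖φ (θ q g)‖ < ε := by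
      by_contra hbad
      push Not at hbad
      have h6 : ∀ᶠ X : ℕ in atTop, (((Finset.Icc 1 X).filter
          (fun q : ℕ => ∃ g ∈ F, ε ≤ ‖φ (θ q g)‖)).card : ℝ) / X = 1 := by
        filter_upwards [eventually_gt_atTop 0] with X hX
        have h7 : (Finset.Icc 1 X).filter (fun q : ℕ => ∃ g ∈ F, ε ≤ ‖φ (θ q g)‖) =
            Finset.Icc 1 X := by
          rw [Finset.filter_eq_self]
          intro q hq
          exact hbad q (Finset.mem_Icc.mp hq).1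
        rw [h7, Nat.card_Icc, Nat.add_sub_cancel]
        have : (X : ℝ) ≠ 0 := by exact_mod_cast hX.ne'
        field_simp
      have h8 := tendsto_nhds_unique (h5.congr' h6) tendsto_const_nhds
      norm_num at h8
    obtain ⟨h9, h10, h11⟩ := hpull φ hex q hq1
    rcases hloc _ h9 hq with h12 | h12
    · exact h10 h12
    · exact h11 h12

end Pool.Agent.Results.MP_81910f_an.LocalToGlobal
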