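import Mathlib
import Pool.Agent.Helper17.Herglotz
import Pool.Agent.Helper63.FX.ExLikeOf
import Pool.Agent.Helper61.FR.CircleF
import Pool.Agent.Helper61.FR.Corr

set_option autoImplicit false
open scoped ComplexOrder InnerProductSpace
open Filter MeasureTheory Finset Helper17.FU Helper17.FUGroup Helper91.TTT

namespace Pool.Agent.Results.MP_81910f_an.RateRigidity

/-- extreme normalised positive definite class functions -/
def IsExtremeTrace (G : Subgroup (Equiv.Perm ℚ)) (φ : G → ℂ) : Prop :=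
  φ ∈ Set.extremePoints ℝ {ψ : G → ℂ | ψ 1 = 1 ∧ (∀ g h : G, ψ (h * g * h⁻¹) = ψ g) ∧
    ∀ (s : Finset G) (c : G → ℂ), 0 ≤ ∑ i ∈ s, ∑ j ∈ s, star (c j) * c i * ψ (j⁻¹ * i)}

/-- the translates by translations span a finite dimensional space -/
def CondFiniteDim (G : Subgroup (Equiv.Perm ℚ)) (φ : G → ℂ) : Prop :=
  FiniteDimensional ℂ (Submodule.span ℂ {F : G → ℂ | ∃ n : G,
    (∃ r : ℚ, ∀ x : ℚ, (n : Equiv.Perm ℚ) x = x + r) ∧ F = fun x => φ (n * x)})

/-- average of the character `x ↦ e^{2 π i m x}` over the points `2 ^ i 3 ^ k x`, `i < M`,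
`k < N` -/
noncomputable def boxAvg (M N : ℕ) (m : ℤ) (x : AddCircle (1 : ℝ)) : ℂ :=
  (∑ i ∈ range M, ∑ k ∈ range N, (fourier (m * (2 ^ i * 3 ^ k)) x : ℂ)) / (M * N)

/-- deviation of the correlations of `m` and `2 ^ a 3 ^ b m`, and of `2 ^ a m` and `3 ^ b m`,
from their values under independence -/
noncomputable def corr {G : Subgroup (Equiv.Perm ℚ)} (τ : G) (φ : G → ℂ) (m a b : ℕ) : ℝ :=
  ‖φ (τ ^ (m * (2 ^ a * 3 ^ b - 1) : ℤ)) - (‖φ (τ ^ m)‖ ^ 2 : ℝ)‖ +
  ‖φ (τ ^ (m * (2 ^ a - 3 ^ b) : ℤ)) - (‖φ (τ ^ m)‖ ^ 2 : ℝ)‖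

theorem result :
  ∀ (s2 s3 t : Equiv.Perm ℚ), (∀ x : ℚ, s2 x = 2 * x) → (∀ x : ℚ, s3 x = 3 * x) →
  (∀ x : ℚ, t x = x + 1) →
  ∀ (G : Subgroup (Equiv.Perm ℚ)), G = Subgroup.closure {s2, s3, t} →
  ∀ τ : G, (τ : Equiv.Perm ℚ) = t →
  ∀ φ : G → ℂ, IsExtremeTrace G φ → ¬ CondFiniteDim G φ →
  ∃ μ : Measure (AddCircle (1 : ℝ)), IsProbabilityMeasure μ ∧
    (∀ m : ℤ, ∫ x, (fourier m x : ℂ) ∂μ = φ (τ ^ m)) ∧
  List.TFAE [
    φ = Set.indicator ({1} : Set G) (fun _ => (1 : ℂ)),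
    ∀ m : ℕ, 1 ≤ m → ∃ C δ : ℝ, 0 < δ ∧
      ∀ a b : ℕ, corr τ φ m a b ≤ C * ((1 + a + b : ℕ) : ℝ) ^ (-1 - δ),
    ∀ m : ℕ, 1 ≤ m →
      Summable fun p : ℕ × ℕ => corr τ φ m p.1 p.2 / (1 + p.1 + Real.log (1 + p.2)),
    ∀ m : ℕ, 1 ≤ m → ∃ p : ℝ, 0 < p ∧ Summable fun q : ℕ =>
      (2 ^ q / q : ℝ) * ∫ x, ‖boxAvg (q / 200) (2 ^ q) m x - φ (τ ^ m)‖ ^ p ∂μ,
    ∀ m : ℕ, 1 ≤ m → ∀ η : ℝ, 0 < η → Summable fun q : ℕ =>
      (2 ^ q / q : ℝ) * μ.real {x | η < ‖boxAvg (q / 200) (2 ^ q) m x - φ (τ ^ m)‖},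
    ∀ m : ℕ, 1 ≤ m → ∀ᵐ x ∂μ, ∀ ε : ℝ, 0 < ε → ∃ Q : ℕ, ∀ q, Q ≤ q → ∀ i, i ≤ 2 ^ q →
      ‖boxAvg (q / 200) (2 ^ q) m ((2 ^ i : ℕ) • x) - φ (τ ^ m)‖ ≤ ε] := by
  intro s2 s3 t h2 h3 ht G hG τ hτ φ hφ hfd
  subst hG
  have hφ' : φ ∈ Set.extremePoints ℝ (TR (GG s2 s3 t)) := hφ
  have hφT := hφ'.1
  have hφ1 : φ 1 = 1 := hφT.1
  have hφc := hφT.2.1
  have hFφ : Fact (PD φ) := ⟨hφT.2.2⟩
  obtain ⟨σ2, σ3, τ', hσ2, hσ3, hτ', e2, e3, ecomm, hgen⟩ := relations h2 h3 ht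
  have hττ' : τ' = τ := Subtype.ext (by rw [hτ', hτ])
  rw [hττ'] at e2 e3 hgen
  -- the measure
  obtain ⟨μ, hμp, hμ⟩ := Helper17.Herglotz.herglotz (rf_pdz (φ := φ) τ 1)
    (by unfold rf; simp [hφ1])
  have hμ' : ∀ n : ℤ, ∫ x, (fourier n x : ℂ) ∂μ = φ (τ ^ n) := by
    intro n
    rw [hμ n]; unfold rf; rw [one_mul]
  have hinv : ∀ N : ℕ, (∀ j : ℤ, φ (τ ^ ((N : ℤ) * j)) = φ (τ ^ j)) →
      MeasurePreserving (Helper17.TranslM.T N) μ μ := by
    intro N hN
    refine ⟨Helper17.TranslM.measurable_T N, ?_⟩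
    have hp : IsProbabilityMeasure (μ.map (Helper17.TranslM.T N)) :=
      Measure.isProbabilityMeasure_map (Helper17.TranslM.measurable_T N).aemeasurable
    apply Helper17.TranslM.eq_of_fourier
    intro m
    rw [integral_map (Helper17.TranslM.measurable_T N).aemeasurable
      (fourier m).continuous.aestronglyMeasurable, hμ' m, ← hN m, ← hμ']
    refine integral_congr_ae (Eventually.of_forall fun x => ?_)
    simp only [Helper17.TranslM.T, fourier_apply]
    congr 1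
    congr 1
    rw [← natCast_zsmul, smul_smul, mul_comm]
  have hm2 : MeasurePreserving (fun x : AddCircle (1 : ℝ) => (2 : ℕ) • x) μ μ := by
    apply hinv 2
    intro j
    have := Helper17.FU.conj_pow e2 j
    rw [show ((2 : ℕ) : ℤ) * j = 2 * j by norm_num]
    rw [← this, hφc]
  have hm3 : MeasurePreserving (fun x : AddCircle (1 : ℝ) => (3 : ℕ) • x) μ μ := by
    apply hinv 3
    intro j
    have := conj_pow3 e3 j
    rw [show ((3 : ℕ) : ℤ) * j = 3 * j by norm_num]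
    rw [← this, hφc]
  have hbox : ∀ (M N : ℕ) (m : ℤ), boxAvg M N m = Pool.Agent.Helper61.FR.cavg M N m :=
    fun _ _ _ => rfl
  refine ⟨μ, hμp, hμ', ?_⟩
  tfae_have 1 → 2 := by
    intro hΔ m hm
    have hτn : ∀ n : ℤ, n ≠ 0 → φ (τ ^ n) = 0 := by
      intro n hn
      rw [hΔ, Set.indicator_of_notMem]
      intro h
      have h5 : (τ : Equiv.Perm ℚ) ^ n = 1 := by
        rw [← Subgroup.coe_zpow, show τ ^ n = 1 from h, Subgroup.coe_one]
      have h6 := congrArg (fun f : Equiv.Perm ℚ => f 0) h5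
      simp only [hτ] at h6
      rw [t_zpow ht] at h6
      simp only [Equiv.Perm.coe_one, id] at h6
      apply hn
      have : (n : ℚ) = 0 := by linarith
      exact_mod_cast this
    have hφm : φ (τ ^ m) = 0 := by
      have := hτn m (by omega)
      rwa [zpow_natCast] at this
    refine ⟨2, 1, one_pos, fun a b => ?_⟩
    have key : ∀ n : ℤ, (n = 0 → a = 0 ∧ b = 0) → ‖φ (τ ^ n) - (‖φ (τ ^ m)‖ ^ 2 : ℝ)‖ ≤
        1 * ((1 + a + b : ℕ) : ℝ) ^ (-1 - 1 : ℝ) := by
      intro n hn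
      rw [hφm]
      by_cases h0 : n = 0
      · obtain ⟨rfl, rfl⟩ := hn h0
        simp [h0, hφ1]
      · rw [hτn n h0]
        simp only [norm_zero, ne_eq, OfNat.ofNat_ne_zero, not_false_eq_true, zero_pow,
          Complex.ofReal_zero, sub_zero, one_mul]
        positivity
    have hm0 : (m : ℤ) ≠ 0 := by omega
    have hsum : ∀ x y z : ℝ, x ≤ 1 * z → y ≤ 1 * z → x + y ≤ 2 * z := by
      intro x y z hx hy; linarith
    refine hsum _ _ _ ?_ ?_
    · apply key
      intro h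
      have h7 : (2 : ℤ) ^ a * 3 ^ b = 1 := by
        rcases mul_eq_zero.mp h with h | h
        · exact absurd h hm0
        · linarith
      have h8 : 2 ^ a * 3 ^ b = 1 := by exact_mod_cast h7
      have h9 := Nat.eq_one_of_mul_eq_one_right h8
      have h10 := Nat.eq_one_of_mul_eq_one_left h8
      constructor
      · by_contra h11
        have := Nat.one_lt_two_pow h11
        omega
      · by_contra h11
        have := Nat.one_lt_pow h11 (by norm_num : 1 < 3)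
        omega
    · apply key
      intro h
      have h7 : (2 : ℤ) ^ a = 3 ^ b := by
        rcases mul_eq_zero.mp h with h | h
        · exact absurd h hm0
        · linarith
      have h8 : 2 ^ a = 3 ^ b := by exact_mod_cast h7
      have ha : a = 0 := by
        by_contra h11
        have h12 : 2 ∣ 3 ^ b := by rw [← h8]; exact dvd_pow_self 2 h11
        have h13 := Nat.prime_two.dvd_of_dvd_pow h12
        omega
      subst ha
      refine ⟨rfl, ?_⟩
      by_contra h11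
      have := Nat.one_lt_pow h11 (by norm_num : 1 < 3)
      simp at h8
      omega
  have hcorr0 : ∀ m a b : ℕ, 0 ≤ corr τ φ m a b := fun m a b => by unfold corr; positivity
  tfae_have 2 → 3 := by
    intro hD m hm
    obtain ⟨C, δ, hδ, hab⟩ := hD m hm
    exact Pool.Agent.Helper61.FR.summable_corr_of_rate (fun a b => corr τ φ m a b)
      (hcorr0 m) C δ hδ hab
  tfae_have 3 → 4 := by
    intro hD m hm
    obtain ⟨ρ, hρ, hρμ, -⟩ := Pool.Agent.Helper61.FR.exists_inv23 μ hm2 hm3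
    have hcf : ∀ n : ℤ, Pool.Agent.Helper61.FR.cf ρ n = φ (τ ^ n) := fun n => by
      rw [← Pool.Agent.Helper61.FR.integral_fourier_eq hρμ, hμ']
    have hcm : Pool.Agent.Helper61.FR.cf ρ m = φ (τ ^ m) := by rw [hcf, zpow_natCast]
    refine ⟨2, two_pos, ?_⟩
    have h5 : ∀ q : ℕ, ∫ x, ‖boxAvg (q / 200) (2 ^ q) m x - φ (τ ^ m)‖ ^ (2 : ℝ) ∂μ =
        ∫ x, ‖Pool.Agent.Helper61.FR.avg (q / 200) (2 ^ q)
          (fun y => Pool.Agent.Helper61.FR.e (m * y)) x -
          ∫ y, Pool.Agent.Helper61.FR.e (m * y) ∂ρ‖ ^ 2 ∂ρ := by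
      intro q
      have h5 := Pool.Agent.Helper61.FR.integral_var_eq hρμ (q / 200) (2 ^ q) m
      rw [hμ' m, zpow_natCast] at h5
      simp only [hbox, Real.rpow_two]
      exact h5
    simp only [h5]
    refine Pool.Agent.Helper61.FR.summable_var_of_corr (fun a b => corr τ φ m a b) (hcorr0 m)
      (hD m hm) _ (fun q => integral_nonneg fun x => by positivity) 4 (by norm_num)
      (fun q hq => ?_)
    have h6 := Pool.Agent.Helper61.FR.variance_le_sum hρ (q / 200) (2 ^ q) m (by omega)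
      Nat.one_le_two_pow
    refine h6.trans (le_of_eq ?_)
    congr 1
    refine Finset.sum_congr rfl fun a _ => Finset.sum_congr rfl fun b _ => ?_
    unfold corr
    rw [hcm, hcf, hcf]
  tfae_have 4 → 5 := by
    intro hV m hm η hη
    obtain ⟨p, hp, h5⟩ := hV m hm
    exact Pool.Agent.Helper61.FR.summable_of_summable_moment (fun q => q / 200) m _ p hp h5 η hη
  tfae_have 5 → 6 := by
    intro hW m hm
    have h5 := Pool.Agent.Helper61.FR.circle_moving hm2 hm3 m (fun η hη => by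
      have h5 := hW m hm η hη
      rw [← zpow_natCast, ← hμ' m] at h5
      exact h5)
    rw [hμ' m, zpow_natCast] at h5
    exact h5
  tfae_have 6 → 1 := by
    intro hF
    by_contra hΔ
    have hex := Helper63.FX.exlike_of_exotic h2 h3 ht hτ hφ' hΔ hfd
    obtain ⟨ν, hνp, hν, -, -, hat⟩ := hex.rep
    have hνμ : ν = μ := by
      apply Helper17.TranslM.eq_of_fourier
      intro m
      rw [hμ' m]
      exact hν m
    rw [hνμ] at hat
    have hz := Pool.Agent.Helper61.FR.circle_forward hm2 hm3 hat (fun q => q / 200)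
      (fun q hq => ⟨by omega, by omega⟩) (fun m hm => by
      have h5 := hF m hm
      rw [← zpow_natCast, ← hμ' m] at h5
      exact h5)
    obtain ⟨n, hn, hφn⟩ := hex.ne
    apply hφn
    show φ (τ ^ n) = 0
    rw [← hμ' n]
    rcases lt_or_gt_of_ne hn with h | h
    · have h5 := hz (-n).toNat (by omega)
      rw [show (((-n).toNat : ℕ) : ℤ) = -n by omega] at h5
      have h6 : ∫ x, (fourier n x : ℂ) ∂μ = star (∫ x, (fourier (-n) x : ℂ) ∂μ) := by
        rw [RCLike.star_def, ← integral_conj]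
        refine integral_congr_ae (Eventually.of_forall fun x => ?_)
        simp only [fourier_neg, RingHomCompTriple.comp_apply, RingHom.id_apply]
      rw [h6, h5, star_zero]
    · have h5 := hz n.toNat (by omega)
      rwa [show ((n.toNat : ℕ) : ℤ) = n by omega] at h5
  tfae_finish

end Pool.Agent.Results.MP_81910f_an.RateRigidity
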